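import Pool.Agent.Helper80.DPH.Main

/-!
# Chirotopes of double pseudohyperplane arrangements: disproof in every odd dimension

For every odd `d ≥ 3` there are two indexed oriented arrangements of `d + 3` double
pseudohyperplanes in `ℝP^d` with the same chirotope which are not isomorphic, not even when the
orientations are forgotten.
-/

namespace Pool.Agent.Results.MP_c53be3_co.OddDimension

open Pool.Agent.Helper80.DPH

theorem result (d : ℕ) (hd : 3 ≤ d) (hodd : Odd d) :
    ∃ (I : Type) (_ : Finite I) (A B : OrientedArrangement d I),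
      Nat.card I = d + 3 ∧
      A.chirotope = B.chirotope ∧
      ¬ A.Isomorphic B ∧
      ¬ ∃ h : RP d ≃ₜ RP d, ∀ i, h '' A.carrier i = B.carrier i := by
  obtain ⟨A, B, h1, h2, h3⟩ := main d hd hodd
  exact ⟨Fin (d + 1) ⊕ Bool, inferInstance, A, B, by simp, h1, h2, h3⟩

end Pool.Agent.Results.MP_c53be3_co.OddDimension
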